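import Mathlib
import Pool.Agent.Q77.LU.StmH
import Pool.Agent.H906R3.YM.Equi
import Pool.Agent.H906R3.YM.Conc

/-!
# Project LU, lemma PULL: pull back of functions to the chart
-/

set_option autoImplicit false

namespace Pool.Agent.Q66.LU

open MeasureTheory Matrix Set Filter Topology
open scoped ContDiff Matrix.Norms.Frobenius
open Pool.Agent.Q77.LU
open Pool.Agent.H906R3

set_option linter.unusedSectionVars false

noncomputable section

variable {N n D l : ℕ} {G : Subgroup (UU N)}

/-! ### bridge to the library -/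

/-- The same data in the form used by the helper files. -/
def fm (B : LieBasis G n) : YM.Frame G n where
  X := B.X
  ex := B.ex
  ex_eq := B.ex_eq
  orth := B.orth
  full := B.full

/-- The abstract data. -/
def ld (B : LieBasis G n) : YM.LD G N n := (fm B).toLD

lemma shift_eq (B : LieBasis G n) (e : Link D l) (a : Fin n) (t : ℝ) (U : Link D l → G) :
    (ld B).shift e a t U = Function.update U e (B.ex a t * U e) := by
  funext e'
  unfold YM.LD.shift
  by_cases h : e' = e
  · subst h
    rw [Pi.mul_apply, Pi.mulSingle_eq_same, Function.update_self]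
    rfl
  · rw [Pi.mul_apply, Pi.mulSingle_eq_of_ne h, one_mul, Function.update_of_ne h]

lemma dlink_eq [NeZero l] (B : LieBasis G n) (e : Link D l) (a : Fin n)
    (F : YM.Sm (ld B) (Link D l)) (U : Link D l → G) :
    dlink B e a F.1 U = ((ld B).Dv (e, a) F).1 U := by
  rw [YM.Dv_apply]
  unfold dlink YM.LD.dF
  simp only [shift_eq]

lemma magnetic_eq [NeZero l] (B : LieBasis G n) (U : Link D l → G) :
    magnetic U = (YM.VT (ld B) D l).1 U := by
  have h1 := YM.VT_apply (L := ld B) U
  have h2 : (YM.VT (ld B) D l).1 U = (ld B).ev U (YM.VT (ld B) D l) := rfl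
  rw [h2, h1]
  have h3 : ∑ p : YM.Pl D l, YM.we (ld B) (YM.plqT U p.1.1 p.1.2.1 p.1.2.2) =
      ∑ p ∈ (Finset.univ.filter fun p : (Fin D → ZMod l) × Fin D × Fin D => p.2.1 < p.2.2),
        YM.we (ld B) (YM.plqT U p.1 p.2.1 p.2.2) := by
    rw [Finset.sum_subtype (p := fun p : (Fin D → ZMod l) × Fin D × Fin D => p.2.1 < p.2.2)]
    intro p; simp
  rw [h3, Finset.sum_filter, Fintype.sum_prod_type]
  unfold magnetic
  refine Finset.sum_congr rfl fun x _ => ?_
  rw [Fintype.sum_prod_type]
  rfl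

lemma smooth_dlink [NeZero l] (B : LieBasis G n) (e : Link D l) (a : Fin n)
    {F : (Link D l → G) → ℝ} (hF : IsSmooth F) : IsSmooth (dlink B e a F) := by
  have h1 : dlink B e a F = ((ld B).Dv (e, a) (⟨F, hF⟩ : YM.Sm (ld B) (Link D l))).1 := by
    funext U
    exact dlink_eq B e a ⟨F, hF⟩ U
  rw [h1]
  exact ((ld B).Dv (e, a) (⟨F, hF⟩ : YM.Sm (ld B) (Link D l))).2

lemma grad_eq [NeZero l] (B : LieBasis G n) {F : (Link D l → G) → ℝ} (hF : IsSmooth F)
    (U : Link D l → G) : ∑ e, ∑ a, dlink B e a F U ^ 2 =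
      (YM.Gam (ld B).Dv (⟨F, hF⟩ : YM.Sm (ld B) (Link D l)) ⟨F, hF⟩).1 U := by
  have h1 : (YM.Gam (ld B).Dv (⟨F, hF⟩ : YM.Sm (ld B) (Link D l)) ⟨F, hF⟩).1 U =
      (ld B).ev U (YM.Gam (ld B).Dv (⟨F, hF⟩ : YM.Sm (ld B) (Link D l)) ⟨F, hF⟩) := rfl
  rw [h1]
  unfold YM.Gam
  rw [map_sum]
  refine Eq.trans ?_ (Fintype.sum_prod_type fun j : Link D l × Fin n =>
      (ld B).ev U ((ld B).Dv j (⟨F, hF⟩ : YM.Sm (ld B) (Link D l)) *
        (ld B).Dv j (⟨F, hF⟩ : YM.Sm (ld B) (Link D l)))).symm
  refine Finset.sum_congr rfl fun e _ => Finset.sum_congr rfl fun a _ => ?_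
  show (dlink B e a F U) ^ 2 = ((ld B).Dv (e, a) (⟨F, hF⟩ : YM.Sm (ld B) (Link D l))).1 U *
    ((ld B).Dv (e, a) (⟨F, hF⟩ : YM.Sm (ld B) (Link D l))).1 U
  rw [← dlink_eq, sq]

lemma grad_gauge [NeZero l] (B : LieBasis G n) {F : (Link D l → G) → ℝ} (hF : IsSmooth F)
    (hg : GaugeInv F) : GaugeInv (fun U => ∑ e, ∑ a, dlink B e a F U ^ 2) := by
  intro γ U
  show ∑ e, ∑ a, dlink B e a F (gauge γ U) ^ 2 = ∑ e, ∑ a, dlink B e a F U ^ 2
  rw [grad_eq B hF, grad_eq B hF]
  have h1 : YM.gs γ (⟨F, hF⟩ : YM.Sm (ld B) (Link D l)) = ⟨F, hF⟩ :=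
    YM.ev_ext fun W => hg γ W
  have h2 := YM.Gam_gs γ (⟨F, hF⟩ : YM.Sm (ld B) (Link D l)) ⟨F, hF⟩
  rw [h1] at h2
  exact (congrArg (fun v : YM.Sm (ld B) (Link D l) => v.1 U) h2).symm

lemma magnetic_gauge [NeZero l] (B : LieBasis G n) :
    GaugeInv (fun U : Link D l → G => magnetic U) := by
  intro γ U
  show magnetic (gauge γ U) = magnetic U
  rw [magnetic_eq B, magnetic_eq B]
  exact congrArg (fun v : YM.Sm (ld B) (Link D l) => v.1 U) (YM.gs_VT (L := ld B) γ)

/-! ### the centre -/

lemma centre_update (z : Fin D → G) (hz : ∀ i, z i ∈ Subgroup.center G) (U : Link D l → G)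
    (e : Link D l) (h : G) : Function.update (centre z U) e (h * centre z U e) =
      centre z (Function.update U e (h * U e)) := by
  funext e'
  by_cases he : e' = e
  · subst he
    rw [Function.update_self]
    unfold centre
    rw [Function.update_self]
    split_ifs with hc
    · rw [← mul_assoc, ← mul_assoc, (Subgroup.mem_center_iff.1 (hz e'.2) h)]
    · rfl
  · rw [Function.update_of_ne he]
    unfold centre
    rw [Function.update_of_ne he]

lemma grad_centre [NeZero l] (B : LieBasis G n) {F : (Link D l → G) → ℝ}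
    (hc : CentreInv F) : CentreInv (fun U => ∑ e, ∑ a, dlink B e a F U ^ 2) := by
  intro z hz U
  show ∑ e, ∑ a, dlink B e a F (centre z U) ^ 2 = ∑ e, ∑ a, dlink B e a F U ^ 2
  refine Finset.sum_congr rfl fun e _ => Finset.sum_congr rfl fun a _ => ?_
  unfold dlink
  simp only [centre_update z hz, hc z hz]

lemma magnetic_centre [NeZero l] : CentreInv (fun U : Link D l → G => magnetic U) := by
  intro z hz U
  show magnetic (centre z U) = magnetic U
  unfold magnetic
  refine Finset.sum_congr rfl fun x _ => Finset.sum_congr rfl fun i _ =>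
    Finset.sum_congr rfl fun j _ => ?_
  by_cases hij : i < j
  · rw [if_pos hij, if_pos hij]
    have hne : i ≠ j := hij.ne
    have h1 : plaq (centre z U) x i j = plaq U x i j := by
      have e1 : (x + unitv j : Fin D → ZMod l) i = x i := by
        simp [unitv, Pi.single_eq_of_ne hne]
      have e2 : (x + unitv i : Fin D → ZMod l) j = x j := by
        simp [unitv, Pi.single_eq_of_ne hne.symm]
      have ci : ∀ g : G, g * z i = z i * g := fun g => Subgroup.mem_center_iff.1 (hz i) g
      have cj : ∀ g : G, g * z j = z j * g := fun g => Subgroup.mem_center_iff.1 (hz j) g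
      have ci' : ∀ g : G, g * (z i)⁻¹ = (z i)⁻¹ * g := fun g =>
        Subgroup.mem_center_iff.1 (inv_mem (hz i)) g
      have cj' : ∀ g : G, g * (z j)⁻¹ = (z j)⁻¹ * g := fun g =>
        Subgroup.mem_center_iff.1 (inv_mem (hz j)) g
      unfold plaq centre
      simp only [e1, e2]
      split_ifs with h2 h3
      · rw [_root_.mul_inv_rev, _root_.mul_inv_rev]
        calc z i * U (x, i) * (z j * U (x + unitv i, j)) * ((U (x + unitv j, i))⁻¹ * (z i)⁻¹) *
              ((U (x, j))⁻¹ * (z j)⁻¹)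
            = z i * U (x, i) * z j * U (x + unitv i, j) * (U (x + unitv j, i))⁻¹ * (z i)⁻¹ *
              ((U (x, j))⁻¹ * (z j)⁻¹) := by group
          _ = (z i)⁻¹ * (z i * U (x, i) * z j * U (x + unitv i, j) * (U (x + unitv j, i))⁻¹) *
              ((U (x, j))⁻¹ * (z j)⁻¹) := by rw [ci']
          _ = U (x, i) * z j * (U (x + unitv i, j) * (U (x + unitv j, i))⁻¹ *
              (U (x, j))⁻¹) * (z j)⁻¹ := by group
          _ = (z j)⁻¹ * (U (x, i) * z j * (U (x + unitv i, j) * (U (x + unitv j, i))⁻¹ *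
              (U (x, j))⁻¹)) := by rw [cj']
          _ = _ := by rw [cj (U (x, i))]; group
      · rw [_root_.mul_inv_rev]
        calc z i * U (x, i) * U (x + unitv i, j) * ((U (x + unitv j, i))⁻¹ * (z i)⁻¹) *
              (U (x, j))⁻¹
            = z i * U (x, i) * U (x + unitv i, j) * (U (x + unitv j, i))⁻¹ * (z i)⁻¹ *
              (U (x, j))⁻¹ := by group
          _ = (z i)⁻¹ * (z i * U (x, i) * U (x + unitv i, j) * (U (x + unitv j, i))⁻¹) *
              (U (x, j))⁻¹ := by rw [ci']
          _ = _ := by group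
      · rw [_root_.mul_inv_rev]
        calc U (x, i) * (z j * U (x + unitv i, j)) * (U (x + unitv j, i))⁻¹ *
              ((U (x, j))⁻¹ * (z j)⁻¹)
            = U (x, i) * z j * U (x + unitv i, j) * (U (x + unitv j, i))⁻¹ *
              (U (x, j))⁻¹ * (z j)⁻¹ := by group
          _ = (z j)⁻¹ * (U (x, i) * z j * U (x + unitv i, j) * (U (x + unitv j, i))⁻¹ *
              (U (x, j))⁻¹) := by rw [cj']
          _ = _ := by rw [cj (U (x, i))]; group
      · rfl
    rw [h1]
  · rw [if_neg hij, if_neg hij]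

/-! ### topology -/

lemma mt_cont : Continuous (mt : G → Mt N) := continuous_subtype_val.comp continuous_subtype_val

lemma smooth_cont [NeZero l] {F : (Link D l → G) → ℝ} (hF : IsSmooth F) : Continuous F := by
  obtain ⟨f, hf, h⟩ := hF
  have h1 : F = fun U => f fun e => mt (U e) := funext h
  rw [h1]
  exact hf.continuous.comp (continuous_pi fun e => mt_cont.comp (continuous_apply e))

lemma compG (hG : IsClosed (G : Set (UU N))) : CompactSpace G := by
  have h1 : IsCompact (G : Set (UU N)) := hG.isCompact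
  exact isCompact_iff_compactSpace.1 h1

lemma secG : SecondCountableTopology G := by
  have h00 : SecondCountableTopology (UU N) := TopologicalSpace.Subtype.secondCountableTopology _
  exact TopologicalSpace.Subtype.secondCountableTopology _

lemma n2_cont {ι : Type} [Fintype ι] : Continuous (n2 : (ι → ℝ) → ℝ) := by
  unfold n2
  fun_prop

lemma nx_cont {P Q : Type} [Fintype P] [Fintype Q] :
    Continuous (nx : (P → ℝ) × (Q → ℝ) → ℝ) := by
  unfold nx
  exact (n2_cont.comp continuous_fst).add (n2_cont.comp continuous_snd)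

lemma n2_nonneg {ι : Type} [Fintype ι] (x : ι → ℝ) : 0 ≤ n2 x :=
  Finset.sum_nonneg fun _ _ => sq_nonneg _

lemma norm_le_n2 {ι : Type} [Fintype ι] (x : ι → ℝ) : ‖x‖ ≤ Real.sqrt (n2 x) := by
  refine (pi_norm_le_iff_of_nonneg (Real.sqrt_nonneg _)).2 fun i => ?_
  rw [Real.norm_eq_abs]
  refine Real.abs_le_sqrt ?_
  exact Finset.single_le_sum (f := fun i => x i ^ 2) (fun _ _ => sq_nonneg _) (Finset.mem_univ i)

lemma compact_ball {P Q : Type} [Fintype P] [Fintype Q] (c : ℝ) :
    IsCompact {x : (P → ℝ) × (Q → ℝ) | nx x ≤ c} := by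
  refine Metric.isCompact_of_isClosed_isBounded (isClosed_le nx_cont continuous_const) ?_
  refine (Metric.isBounded_closedBall (x := (0 : (P → ℝ) × (Q → ℝ))) (r := Real.sqrt c)).subset ?_
  intro x hx
  rw [mem_closedBall_zero_iff, Prod.norm_def]
  have h1 : nx x ≤ c := hx
  unfold nx at h1
  refine max_le ?_ ?_
  · exact (norm_le_n2 _).trans (Real.sqrt_le_sqrt (by linarith [n2_nonneg x.2]))
  · exact (norm_le_n2 _).trans (Real.sqrt_le_sqrt (by linarith [n2_nonneg x.1]))

section chart

variable [NeZero l] {B : LieBasis G n} (dc : Dec B D l)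

lemma ch_cont (hs : ContDiff ℝ ∞ (fun x (e : Link D l) => mt (dc.ch x e))) :
    Continuous dc.ch := by
  refine continuous_pi fun e => ?_
  refine continuous_induced_rng.2 (continuous_induced_rng.2 ?_)
  exact (continuous_apply e).comp hs.continuous

lemma centre_closed : IsClosed {z : Fin D → G | ∀ i, z i ∈ Subgroup.center G} := by
  have h1 : {z : Fin D → G | ∀ i, z i ∈ Subgroup.center G} =
      ⋂ i : Fin D, ⋂ g : G, {z : Fin D → G | g * z i = z i * g} := by
    ext z
    simp [Subgroup.mem_center_iff]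
  rw [h1]
  refine isClosed_iInter fun i => isClosed_iInter fun g => isClosed_eq ?_ ?_ <;> fun_prop

/-- The closure of a set of configurations near the torons. -/
lemma closure_orb (hG : IsClosed (G : Set (UU N)))
    (hs : ContDiff ℝ ∞ (fun x (e : Link D l) => mt (dc.ch x e))) {ρ r : ℝ} (hρ : 0 < ρ)
    (hr : ρ < r) {F : (Link D l → G) → ℝ} (hF : ∀ U, F U ≠ 0 → Orb dc ρ U) {U : Link D l → G}
    (hU : U ∈ closure {U | F U ≠ 0}) : Orb dc r U := by
  have : CompactSpace G := compG hG
  let T : Set (((Fin D → ZMod l) → G) × (Fin D → G) × ((Fin D × Fin n → ℝ) × (Fin dc.M → ℝ))) :=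
    univ ×ˢ ({z : Fin D → G | ∀ i, z i ∈ Subgroup.center G} ×ˢ {x | nx x ≤ ρ ^ 2})
  have hT : IsCompact T :=
    isCompact_univ.prod (centre_closed.isCompact.prod (compact_ball _))
  have hm : Continuous fun p : ((Fin D → ZMod l) → G) × (Fin D → G) ×
      ((Fin D × Fin n → ℝ) × (Fin dc.M → ℝ)) => gauge p.1 (centre p.2.1 (dc.ch p.2.2)) := by
    refine continuous_pi fun e => ?_
    have hch : Continuous fun p : ((Fin D → ZMod l) → G) × (Fin D → G) ×
      ((Fin D × Fin n → ℝ) × (Fin dc.M → ℝ)) => dc.ch p.2.2 e :=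
      (continuous_apply e).comp ((ch_cont dc hs).comp (continuous_snd.comp continuous_snd))
    unfold Q77.LU.gauge Q77.LU.centre
    by_cases hc : e.1 e.2 = -1
    · simp only [if_pos hc]
      fun_prop
    · simp only [if_neg hc]
      fun_prop
  have hcl : IsClosed ((fun p : ((Fin D → ZMod l) → G) × (Fin D → G) ×
      ((Fin D × Fin n → ℝ) × (Fin dc.M → ℝ)) => gauge p.1 (centre p.2.1 (dc.ch p.2.2))) '' T) :=
    (hT.image hm).isClosed
  have hsub : {U | F U ≠ 0} ⊆ (fun p : ((Fin D → ZMod l) → G) × (Fin D → G) ×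
      ((Fin D × Fin n → ℝ) × (Fin dc.M → ℝ)) => gauge p.1 (centre p.2.1 (dc.ch p.2.2))) '' T := by
    intro W hW
    obtain ⟨γ, z, x, hz, hx, rfl⟩ := hF W hW
    exact ⟨(γ, z, x), ⟨mem_univ _, hz, hx.le⟩, rfl⟩
  obtain ⟨⟨γ, z, x⟩, ⟨-, hz, hx⟩, rfl⟩ := closure_minimal hsub hcl hU
  have h2 : ρ ^ 2 < r ^ 2 := by nlinarith
  exact ⟨γ, z, x, hz, lt_of_le_of_lt hx h2, rfl⟩

lemma dlink_zero (e : Link D l) (a : Fin n) {F : (Link D l → G) → ℝ} {U : Link D l → G}
    (hU : U ∉ closure {U | F U ≠ 0}) : dlink B e a F U = 0 := by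
  have h1 : ∀ᶠ W in 𝓝 U, F W = 0 := by
    have h2 : (closure {U | F U ≠ 0})ᶜ ∈ 𝓝 U := isClosed_closure.isOpen_compl.mem_nhds hU
    filter_upwards [h2] with W hW
    by_contra hc
    exact hW (subset_closure hc)
  have h3 : Tendsto (fun t : ℝ => Function.update U e (B.ex a t * U e)) (𝓝 0) (𝓝 U) := by
    have h4 : Continuous fun t : ℝ => Function.update U e (B.ex a t * U e) := by
      have h5 : Continuous (B.ex a) := by
        refine continuous_induced_rng.2 (continuous_induced_rng.2 ?_)
        have h6 : (fun t => ((B.ex a t : UU N) : Mt N)) = fun t : ℝ =>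
          NormedSpace.exp (t • B.X a) := by
          funext t; exact B.ex_eq a t
        show Continuous (fun t => ((B.ex a t : UU N) : Mt N))
        rw [h6]
        exact NormedSpace.exp_continuous.comp (continuous_id.smul continuous_const)
      exact continuous_const.update e (h5.mul continuous_const)
    have h7 := h4.tendsto 0
    have h8 : Function.update U e (B.ex a 0 * U e) = U := by
      have h9 : B.ex a 0 = 1 := (fm B).ex_zero a
      rw [h9, one_mul, Function.update_eq_self]
    rw [h8] at h7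
    exact h7
  have h10 : (fun t => F (Function.update U e (B.ex a t * U e))) =ᶠ[𝓝 0] fun _ => (0 : ℝ) :=
    h3.eventually h1
  unfold dlink
  rw [h10.deriv_eq, deriv_const]

end chart

/-! ### the main statement -/

section main

variable {P Q : Type} [Fintype P] [DecidableEq P] [Fintype Q] [DecidableEq Q]

lemma gC_congr {f h : (P → ℝ) × (Q → ℝ) → ℝ} {x : (P → ℝ) × (Q → ℝ)} (hf : f =ᶠ[𝓝 x] h) :
    gC f x = gC h x := by
  unfold gC
  rw [hf.fderiv_eq]

lemma gA_congr {f h : (P → ℝ) × (Q → ℝ) → ℝ} {x : (P → ℝ) × (Q → ℝ)} (hf : f =ᶠ[𝓝 x] h) :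
    gA f x = gA h x := by
  unfold gA
  rw [hf.fderiv_eq]

lemma gC_cont {f : (P → ℝ) × (Q → ℝ) → ℝ} (hf : ContDiff ℝ ∞ f) : Continuous (gC f) := by
  have h1 : Continuous (fderiv ℝ f) := hf.continuous_fderiv (by simp)
  unfold gC
  exact continuous_finsetSum _ fun i _ => (h1.clm_apply continuous_const).pow 2

lemma gA_cont {f : (P → ℝ) × (Q → ℝ) → ℝ} (hf : ContDiff ℝ ∞ f) : Continuous (gA f) := by
  have h1 : Continuous (fderiv ℝ f) := hf.continuous_fderiv (by simp)
  unfold gA
  exact continuous_finsetSum _ fun i _ => (h1.clm_apply continuous_const).pow 2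

lemma gC_zero (x : (P → ℝ) × (Q → ℝ)) : gC (fun _ => (0 : ℝ)) x = 0 := by
  unfold gC
  simp

lemma gA_zero (x : (P → ℝ) × (Q → ℝ)) : gA (fun _ => (0 : ℝ)) x = 0 := by
  unfold gA
  simp

lemma ball_meas (c : ℝ) : MeasurableSet {x : (P → ℝ) × (Q → ℝ) | nx x < c} :=
  (isOpen_lt nx_cont continuous_const).measurableSet

lemma ball_int {f : (P → ℝ) × (Q → ℝ) → ℝ} (hf : Continuous f) (c : ℝ) :
    IntegrableOn f {x | nx x < c} :=
  (hf.continuousOn.integrableOn_compact (compact_ball c)).mono_set fun _ hx =>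
    le_of_lt (show nx _ < c from hx)

end main

lemma cont_int [NeZero l] [CompactSpace G] [SecondCountableTopology G] [MeasurableSpace G]
    [BorelSpace G] (μ : Measure G) [IsProbabilityMeasure μ] {F : (Link D l → G) → ℝ}
    (hF : Continuous F) : Integrable F (Measure.pi fun _ : Link D l => μ) := by
  have h1 := hF.continuousOn.integrableOn_compact
    (μ := Measure.pi fun _ : Link D l => μ) (isCompact_univ (X := Link D l → G))
  rwa [integrableOn_univ] at h1

theorem t_PULL (_ : S_EXPG) (h1 : S_SYMM) (h2 : S_HC) : S_PULL := by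
  intro N n D l _ G hG B _ _ μ _ _ dc L hL ρ hρ hρr F hF hg hc hsupp
  have : CompactSpace G := compG hG
  have : SecondCountableTopology G := secG
  have hsm : ContDiff ℝ ∞ (fun x (e : Link D l) => mt (dc.ch x e)) :=
    (h1 N n D l G hG B dc 1 0).2.2.2.2.2.2.2.2
  have hρ2 : ρ ^ 2 < L.r ^ 2 := by nlinarith
  have hr := L.rpos
  have hFc := smooth_cont hF
  have hchc := ch_cont dc hsm
  obtain ⟨q, hq⟩ : ∃ q : (Fin D × Fin n → ℝ) × (Fin dc.M → ℝ) → ℝ, q = fun x => F (dc.ch x) :=
    ⟨_, rfl⟩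
  have hqs : ContDiff ℝ ∞ q := by
    obtain ⟨f, hf, hff⟩ := hF
    have : q = fun x => f fun e => mt (dc.ch x e) := by
      rw [hq]; funext x; exact hff _
    rw [this]
    exact hf.comp hsm
  obtain ⟨p, hp⟩ : ∃ p, p = dc.pull L.r F := ⟨_, rfl⟩
  have hpin : ∀ x, nx x < L.r ^ 2 → p x = q x := by
    intro x hx
    rw [hp, hq]
    unfold Dec.pull
    rw [if_pos hx]
  have hpout : ∀ x, ¬ nx x < L.r ^ 2 → p x = 0 := by
    intro x hx
    rw [hp]
    unfold Dec.pull
    rw [if_neg hx]
  have hqne : ∀ x, nx x < L.r ^ 2 → q x ≠ 0 → nx x < ρ ^ 2 := by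
    intro x hx hne
    rw [hq] at hne
    exact hL.uniq x ρ hx hρ hρr.le (hsupp _ hne)
  have hpne : ∀ x, p x ≠ 0 → nx x < ρ ^ 2 := by
    intro x hx
    by_cases h : nx x < L.r ^ 2
    · rw [hpin x h] at hx
      exact hqne x h hx
    · exact absurd (hpout x h) hx
  have hev1 : ∀ x, nx x < L.r ^ 2 → p =ᶠ[𝓝 x] q := by
    intro x hx
    filter_upwards [(isOpen_lt nx_cont continuous_const).mem_nhds hx] with y hy
    exact hpin y hy
  have hev2 : ∀ x, ¬ nx x < L.r ^ 2 → p =ᶠ[𝓝 x] fun _ => 0 := by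
    intro x hx
    have hx' : ρ ^ 2 < nx x := lt_of_lt_of_le hρ2 (not_lt.1 hx)
    filter_upwards [(isOpen_lt continuous_const nx_cont).mem_nhds hx'] with y hy
    by_contra hne
    have h3 := hpne y hne
    have h4 : ρ ^ 2 < nx y := hy
    linarith
  have hps : ContDiff ℝ ∞ p := by
    rw [contDiff_iff_contDiffAt]
    intro x
    by_cases hx : nx x < L.r ^ 2
    · exact hqs.contDiffAt.congr_of_eventuallyEq (hev1 x hx)
    · exact contDiffAt_const.congr_of_eventuallyEq (hev2 x hx)
  have hinv : ∀ h x, p (dc.sg h x) = p x := by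
    intro h x
    obtain ⟨e1, e2, e3, -⟩ := h1 N n D l G hG B dc h x
    have e4 : nx (dc.sg h x) = nx x := by
      unfold nx
      rw [e2, e3]
    by_cases hx : nx x < L.r ^ 2
    · rw [hpin x hx, hpin _ (by rw [e4]; exact hx), hq]
      show F (dc.ch (dc.sg h x)) = F (dc.ch x)
      rw [e1, hg]
    · rw [hpout x hx, hpout _ (by rw [e4]; exact hx)]
  have hJc : Continuous L.J := L.Jsm.continuous
  rw [← hp]
  refine ⟨hps, hpne, hinv, ?_, ?_⟩
  · have h3 := hL.int ρ hρ hρr.le (fun U => F U ^ 2) (hFc.pow 2)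
      (fun γ U => by show F (gauge γ U) ^ 2 = F U ^ 2; rw [hg])
      (fun z hz U => by show F (centre z U) ^ 2 = F U ^ 2; rw [hc z hz])
      (fun U hU => hsupp U fun h0 => hU (by rw [h0]; norm_num))
    rw [h3]
    have h4 : ∫ x, p x ^ 2 * L.J x = ∫ x in {x | nx x < ρ ^ 2}, p x ^ 2 * L.J x := by
      refine (setIntegral_eq_integral_of_forall_compl_eq_zero fun x hx => ?_).symm
      have : p x = 0 := by
        by_contra hne
        exact hx (hpne x hne)
      rw [this]; ring
    rw [h4]
    refine setIntegral_congr_fun (ball_meas _) fun x hx => ?_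
    have hx' : nx x < L.r ^ 2 := lt_trans hx hρ2
    show F (dc.ch x) ^ 2 * L.J x = p x ^ 2 * L.J x
    rw [hpin x hx', hq]
  · intro g hg0
    -- the energy as an integral over the chart
    obtain ⟨Φ, hΦ⟩ : ∃ Φ : (Link D l → G) → ℝ, Φ = fun U => ∑ e, ∑ a, dlink B e a F U ^ 2 :=
      ⟨_, rfl⟩
    have hdc : ∀ e a, Continuous (dlink B e a F) := fun e a =>
      smooth_cont (smooth_dlink B e a hF)
    have hΦc : Continuous Φ := by
      rw [hΦ]
      exact continuous_finsetSum _ fun e _ => continuous_finsetSum _ fun a _ => (hdc e a).pow 2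
    have hmc : Continuous fun U : Link D l → G => magnetic U :=
      smooth_cont (h2 N n D l G hG B).2.2.1
    have hE : energy B μ g F = g ^ 2 / 2 * (∫ U, Φ U ∂(Measure.pi fun _ : Link D l => μ)) +
        1 / g ^ 2 * ∫ U, magnetic U * F U ^ 2 ∂(Measure.pi fun _ : Link D l => μ) := by
      unfold energy
      rw [hΦ]
      congr 2
      have k1 : ∀ e : Link D l, ∀ a : Fin n, Integrable (fun U => dlink B e a F U ^ 2)
          (Measure.pi fun _ : Link D l => μ) := fun e a => cont_int μ ((hdc e a).pow 2)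
      have k2 : ∀ e : Link D l, Integrable (fun U => ∑ a : Fin n, dlink B e a F U ^ 2)
          (Measure.pi fun _ : Link D l => μ) := fun e => integrable_finsetSum _ fun a _ => k1 e a
      refine Eq.trans ?_ (integral_finsetSum _ fun e _ => k2 e).symm
      refine Finset.sum_congr rfl fun e _ => ?_
      exact (integral_finsetSum _ fun a _ => k1 e a).symm
    have hI1 : ∫ U, Φ U ∂(Measure.pi fun _ : Link D l => μ) =
        ∫ x in {x | nx x < L.r ^ 2}, Φ (dc.ch x) * L.J x := by
      refine hL.int L.r hr le_rfl Φ hΦc ?_ ?_ ?_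
      · rw [hΦ]; exact grad_gauge B hF hg
      · rw [hΦ]; exact grad_centre B hc
      · intro U hU
        refine closure_orb dc hG hsm hρ hρr hsupp ?_
        by_contra hcl
        refine hU ?_
        rw [hΦ]
        refine Finset.sum_eq_zero fun e _ => Finset.sum_eq_zero fun a _ => ?_
        rw [dlink_zero e a hcl]
        norm_num
    have hI2 : ∫ U, magnetic U * F U ^ 2 ∂(Measure.pi fun _ : Link D l => μ) =
        ∫ x in {x | nx x < L.r ^ 2}, magnetic (dc.ch x) * F (dc.ch x) ^ 2 * L.J x := by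
      refine hL.int L.r hr le_rfl (fun U => magnetic U * F U ^ 2) (hmc.mul (hFc.pow 2)) ?_ ?_ ?_
      · intro γ U
        show magnetic (gauge γ U) * F (gauge γ U) ^ 2 = magnetic U * F U ^ 2
        have h3 : magnetic (gauge γ U) = magnetic U := magnetic_gauge B γ U
        rw [hg, h3]
      · intro z hz U
        show magnetic (centre z U) * F (centre z U) ^ 2 = magnetic U * F U ^ 2
        have h3 : magnetic (centre z U) = magnetic U := magnetic_centre z hz U
        rw [hc z hz, h3]
      · intro U hU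
        obtain ⟨γ, z, x, hz, hx, hUx⟩ := hsupp U fun h0 => hU (by
          show magnetic U * F U ^ 2 = 0
          rw [h0]; ring)
        exact ⟨γ, z, x, hz, hx.trans hρ2, hUx⟩
    have hwq : ∀ x, L.w x = magnetic (dc.ch x) := fun x => congrFun hL.w x
    have hΦq : Continuous fun x => Φ (dc.ch x) := hΦc.comp hchc
    have hEx : energy B μ g F = ∫ x in {x | nx x < L.r ^ 2},
        (g ^ 2 / 2 * Φ (dc.ch x) + 1 / g ^ 2 * L.w x * q x ^ 2) * L.J x := by
      rw [hE, hI1, hI2, ← integral_const_mul, ← integral_const_mul, ← integral_add]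
      · refine setIntegral_congr_fun (ball_meas _) fun x _ => ?_
        rw [hq]
        dsimp only
        rw [hwq]
        ring
      · exact ball_int (continuous_const.mul (hΦq.mul hJc)) _
      · exact ball_int (continuous_const.mul (((hmc.comp hchc).mul
          ((hFc.comp hchc).pow 2)).mul hJc)) _
    have hP : ∀ s : ℝ, (∫ x, (g ^ 2 / 2 * (1 + s * nx x) * (gC p x + gA p x) +
        1 / g ^ 2 * L.w x * p x ^ 2) * L.J x) = ∫ x in {x | nx x < L.r ^ 2},
          (g ^ 2 / 2 * (1 + s * nx x) * (gC q x + gA q x) +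
            1 / g ^ 2 * L.w x * q x ^ 2) * L.J x := by
      intro s
      rw [← setIntegral_eq_integral_of_forall_compl_eq_zero (s := {x | nx x < L.r ^ 2})]
      · refine setIntegral_congr_fun (ball_meas _) fun x hx => ?_
        rw [gC_congr (hev1 x hx), gA_congr (hev1 x hx), hpin x hx]
      · intro x hx
        rw [gC_congr (hev2 x hx), gA_congr (hev2 x hx), hpout x hx, gC_zero, gA_zero]
        ring
    have hci : ∀ s : ℝ, IntegrableOn (fun x => (g ^ 2 / 2 * (1 + s * nx x) * (gC q x + gA q x) +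
        1 / g ^ 2 * L.w x * q x ^ 2) * L.J x) {x | nx x < L.r ^ 2} := fun s =>
      ball_int ((((continuous_const.mul (continuous_const.add (continuous_const.mul
        nx_cont))).mul ((gC_cont hqs).add (gA_cont hqs))).add ((continuous_const.mul
          L.wcont).mul (hqs.continuous.pow 2))).mul hJc) _
    have hci2 : IntegrableOn (fun x => (g ^ 2 / 2 * Φ (dc.ch x) + 1 / g ^ 2 * L.w x * q x ^ 2) *
        L.J x) {x | nx x < L.r ^ 2} :=
      ball_int (((continuous_const.mul hΦq).add ((continuous_const.mul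
          L.wcont).mul (hqs.continuous.pow 2))).mul hJc) _
    have hg2 : 0 ≤ g ^ 2 / 2 := by positivity
    constructor
    · have h3 : (∫ x, (g ^ 2 / 2 * (1 - L.K * nx x) * (gC p x + gA p x) +
        1 / g ^ 2 * L.w x * p x ^ 2) * L.J x) = ∫ x, (g ^ 2 / 2 * (1 + (-L.K) * nx x) *
          (gC p x + gA p x) + 1 / g ^ 2 * L.w x * p x ^ 2) * L.J x := by
        refine integral_congr_ae (Eventually.of_forall fun x => ?_)
        dsimp only
        ring
      rw [h3, hP, hEx]
      refine setIntegral_mono_on (hci _) hci2 (ball_meas _) fun x hx => ?_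
      have h4 := hL.kin1 F hF hg x hx
      rw [← hq] at h4
      refine mul_le_mul_of_nonneg_right ?_ (L.Jpos x).le
      have h5 : (1 - L.K * nx x) * (gC q x + gA q x) ≤ Φ (dc.ch x) := by rw [hΦ]; exact h4
      have h6 := mul_le_mul_of_nonneg_left h5 hg2
      nlinarith
    · rw [hP, hEx]
      refine setIntegral_mono_on hci2 (hci _) (ball_meas _) fun x hx => ?_
      have h4 := hL.kin2 F hF hg x hx
      rw [← hq] at h4
      refine mul_le_mul_of_nonneg_right ?_ (L.Jpos x).le
      have h5 : Φ (dc.ch x) ≤ (1 + L.K * nx x) * (gC q x + gA q x) := by rw [hΦ]; exact h4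
      have h6 := mul_le_mul_of_nonneg_left h5 hg2
      nlinarith

end

end Pool.Agent.Q66.LU
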